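import Pool.Agent.R247.SX.Fin2

/-!
# Strictly singular operators on Schreier spaces which are not limits of `c_0`-factorable ones

Scalars are real or complex (`RCLike 𝕜`), positive integers are `ℕ+`. `Sch n` is the `n`-th
Schreier family (`Pool/Agent/R247/SX/Comb.lean`); `X 𝕜 n` is the Schreier space `X[S_n]`, the
completion of `c_00` in the norm `nrm n x`, the supremum of `∑ j ∈ E, ‖x j‖` over `E ∈ Sch n`
(`Pool/Agent/R247/SX/Space.lean`); `Op 𝕜 n` are its bounded operators and `factC0 𝕜 n` those which
factor through `c_0`, Mathlib's `C₀(ℕ, 𝕜)` (`Pool/Agent/R247/SX/Main.lean`); `StrictlySingular T`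
says that `T` is bounded below on no infinite-dimensional closed subspace
(`Pool/Agent/R247/SX/SS.lean`).

The theorem answers the question negatively for every `n ≥ 1`: the strictly singular operators are
not contained in the operator-norm closure of the set of operators that factor through `c_0`.

Proof. The Schreier space is contained in weak `ℓ_1`, so in `ℓ_2`, with bounded inclusion. Choose
disjoint finite sets `I_k` of positive integers and weights `c_k ≥ 0` on `I_k` of Schreier norm at
most `1` and of sum `L_k → ∞`. The Rademacher embeddings of `ℓ_2(I_k)` in `ℓ_1^{M_k}`,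
`M_k = 2^{|I_k|}`, and a complemented copy of the `c_0`-sum of spaces `ℓ_1^M` in `X[S_n]` give an
operator `T` with `‖T x‖ ≤ 3 ‖x‖_2`. It is strictly singular, as in every infinite-dimensional
subspace of `X[S_n]` there are vectors with small `ℓ_2`-norm compared to their norm. The
functional `U ↦ ∑_{j ∈ I_k} c_k(j) ⟨r_j, U e_j⟩` has norm at most `L_k` and takes the value `L_k`
at `T`, but by Grothendieck's inequality it is at most `K ‖A‖ (‖B‖ + 1) √L_k` at an operator
`A B` through `c_0`. So the distance of `T` to the operators that factor through `c_0` is at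
least `1/2` (in fact `1`).
-/

namespace Pool.Agent.Results.MP_3cdc4e_an.NotContained

open Pool.Agent.R247.SX

theorem result (𝕜 : Type) [RCLike 𝕜] (n : ℕ) (hn : 1 ≤ n) :
    ¬ ({T : Op 𝕜 n | StrictlySingular T} ⊆ closure (factC0 𝕜 n)) := by
  intro h
  obtain ⟨T, hT, hT'⟩ := main2 𝕜 n hn
  exact hT' (h hT)

end Pool.Agent.Results.MP_3cdc4e_an.NotContained
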